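import Mathlib
import Pool.Agent.H87.GcdRec

/-!
MP_0950f1_nt: what a large value of `f_P(N)/N` forces, for an arbitrary polynomial `P`.
-/

open Polynomial Filter
open Pool.Agent.H87.GcdRec

namespace Pool.Agent.Results.MP_0950f1_nt.FinalPhase

/-- the gcd subtracted at step `n + 1` -/
def g (P : ℤ[X]) (N n : ℕ) : ℕ := Int.gcd (a P N n) (P.eval ((n + 1 : ℕ) : ℤ))

theorem a_succ' (P : ℤ[X]) (N : ℕ) {n : ℕ} (hn : 1 ≤ n) :
    a P N (n + 1) = a P N n - (g P N n : ℤ) := a_succ P N hn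

/-- if all gcds from `e` on are `1`, the sequence is arithmetic -/
theorem run (P : ℤ[X]) (N e : ℕ) (he : 1 ≤ e) (n : ℕ)
    (h : ∀ j, e ≤ j → j < n → g P N j = 1) (k : ℕ) (hk : e + k ≤ n) :
    a P N (e + k) = a P N e - k := by
  induction k with
  | zero => simp
  | succ k ih =>
    have h1 := ih (by omega)
    have h2 := h (e + k) (by omega) (by omega)
    have h3 := a_succ' P N (n := e + k) (by omega)
    rw [← add_assoc, h3, h1, h2]
    push_cast
    ring

theorem dvd_eval_of_dvd_sub (P : ℤ[X]) (p x y : ℤ) (hxy : p ∣ y - x) (h : p ∣ P.eval x) :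
    p ∣ P.eval y := by
  have h1 : y - x ∣ P.eval y - P.eval x := Polynomial.sub_dvd_eval_sub _ _ _
  have h3 := dvd_add (hxy.trans h1) h
  simpa using h3

theorem dvd_eval_sub (P : ℤ[X]) (p x : ℤ) (h : p ∣ P.eval x) : p ∣ P.eval (x - p) :=
  dvd_eval_of_dvd_sub P p x (x - p) ⟨-1, by ring⟩ h

/-- If some value of `P` is odd then an even gcd occurs at most once. -/
theorem odd_after_even (P : ℤ[X]) (N : ℕ) (hodd : ∃ m : ℕ, ¬ (2 : ℤ) ∣ P.eval (m : ℤ))
    (n : ℕ) (hn : 1 ≤ n) (heven : 2 ∣ g P N n) (j : ℕ) (hj : n < j) : ¬ 2 ∣ g P N j := by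
  have ha : (2 : ℤ) ∣ a P N n := (Int.natCast_dvd_natCast.2 heven).trans (Int.gcd_dvd_left ..)
  have hP : (2 : ℤ) ∣ P.eval ((n + 1 : ℕ) : ℤ) :=
    (Int.natCast_dvd_natCast.2 heven).trans (Int.gcd_dvd_right ..)
  -- values at indices of the other parity are odd
  have hPodd : ∀ m : ℕ, (2 : ℤ) ∣ ((m : ℤ) - n) → ¬ (2 : ℤ) ∣ P.eval (m : ℤ) := by
    intro m hm hcon
    obtain ⟨m0, hm0⟩ := hodd
    apply hm0
    rcases Int.even_or_odd ((m0 : ℤ) - n) with he | ho
    · refine dvd_eval_of_dvd_sub P 2 m m0 ?_ hcon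
      obtain ⟨u, hu⟩ := hm
      obtain ⟨v, hv⟩ := he.two_dvd
      exact ⟨v - u, by linarith⟩
    · refine dvd_eval_of_dvd_sub P 2 _ m0 ?_ hP
      obtain ⟨v, hv⟩ := ho
      exact ⟨v, by push_cast; linarith⟩
  have key : ∀ k : ℕ, (2 : ℤ) ∣ a P N (n + 1 + k) + k ∧ ¬ 2 ∣ g P N (n + 1 + k) := by
    intro k
    induction k with
    | zero =>
      have h1 : (2 : ℤ) ∣ a P N (n + 1) := by
        rw [a_succ' P N hn]
        exact dvd_sub ha (Int.natCast_dvd_natCast.2 heven)
      refine ⟨by simpa using h1, fun hcon => ?_⟩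
      have h2 : (2 : ℤ) ∣ P.eval ((n + 1 + 0 + 1 : ℕ) : ℤ) :=
        (Int.natCast_dvd_natCast.2 hcon).trans (Int.gcd_dvd_right ..)
      exact hPodd _ ⟨1, by push_cast; ring⟩ h2
    | succ k ih =>
      obtain ⟨ih1, ih2⟩ := ih
      have h1 : (2 : ℤ) ∣ a P N (n + 1 + (k + 1)) + ((k + 1 : ℕ) : ℤ) := by
        rw [← add_assoc, a_succ' P N (by omega : 1 ≤ n + 1 + k)]
        have ho : (2 : ℤ) ∣ (g P N (n + 1 + k) : ℤ) - 1 := by
          have : ¬ (2 : ℤ) ∣ (g P N (n + 1 + k) : ℤ) := fun h =>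
            ih2 (Int.natCast_dvd_natCast.1 h)
          omega
        push_cast
        omega
      refine ⟨h1, fun hcon => ?_⟩
      have h2 : (2 : ℤ) ∣ P.eval ((n + 1 + (k + 1) + 1 : ℕ) : ℤ) :=
        (Int.natCast_dvd_natCast.2 hcon).trans (Int.gcd_dvd_right ..)
      have h3 : (2 : ℤ) ∣ a P N (n + 1 + (k + 1)) :=
        (Int.natCast_dvd_natCast.2 hcon).trans (Int.gcd_dvd_left ..)
      have h4 : (2 : ℤ) ∣ ((k + 1 : ℕ) : ℤ) := by omega
      refine hPodd _ ?_ h2
      push_cast at h4 ⊢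
      omega
  obtain ⟨k, rfl⟩ : ∃ k, j = n + 1 + k := ⟨j - (n + 1), by omega⟩
  exact (key k).2

/-- length of a phase is bounded by each prime factor of the gcd ending it -/
theorem phase_le (P : ℤ[X]) (N e n : ℕ) (he1 : 1 ≤ e) (he2 : e ≤ n)
    (he4 : ∀ j, e ≤ j → j < n → g P N j = 1) (p : ℕ) (hp : p.Prime) (hpg : p ∣ g P N n) :
    n + 1 - e ≤ p := by
  by_contra hcon
  have hlt : p < n + 1 - e := by omega
  have hpa : (p : ℤ) ∣ a P N n :=
    (Int.natCast_dvd_natCast.2 hpg).trans (Int.gcd_dvd_left ..)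
  have hpP : (p : ℤ) ∣ P.eval ((n + 1 : ℕ) : ℤ) :=
    (Int.natCast_dvd_natCast.2 hpg).trans (Int.gcd_dvd_right ..)
  have hgj := he4 (n - p) (by omega) (by have := hp.pos; omega)
  have hr1 := run P N e he1 n he4 (n - e) (by omega)
  have hr2 := run P N e he1 n he4 (n - p - e) (by omega)
  have e1 : e + (n - e) = n := by omega
  have e2 : e + (n - p - e) = n - p := by omega
  rw [e1] at hr1
  rw [e2] at hr2
  have hdiff : a P N (n - p) = a P N n + p := by
    rw [hr1, hr2]
    have : ((n - e : ℕ) : ℤ) = ((n - p - e : ℕ) : ℤ) + p := by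
      have : n - e = (n - p - e) + p := by omega
      exact_mod_cast this
    rw [this]
    ring
  have hd1 : (p : ℤ) ∣ a P N (n - p) := by
    rw [hdiff]
    exact dvd_add hpa (dvd_refl _)
  have hd2 : (p : ℤ) ∣ P.eval ((n - p + 1 : ℕ) : ℤ) := by
    have h := dvd_eval_sub P p _ hpP
    have hc : ((n + 1 : ℕ) : ℤ) - p = ((n - p + 1 : ℕ) : ℤ) := by
      have : n + 1 = (n - p + 1) + p := by omega
      rw [this]
      push_cast
      ring
    rwa [hc] at h
  have hd3 : (p : ℤ) ∣ (g P N (n - p) : ℤ) := Int.dvd_coe_gcd hd1 hd2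
  rw [hgj] at hd3
  have := Int.natCast_dvd_natCast.1 hd3
  exact hp.one_lt.ne' (Nat.dvd_one.1 this)

/-- the invariant along the trajectory -/
theorem invariant (P : ℤ[X]) (N : ℕ) (hodd : ∃ m : ℕ, ¬ (2 : ℤ) ∣ P.eval (m : ℤ))
    (n : ℕ) (h1 : 1 ≤ n) (h2 : n ≤ f P N) :
    ∃ e, 1 ≤ e ∧ e ≤ n ∧ (∀ j, e ≤ j → j < n → g P N j = 1) ∧
      (5 * ((e : ℤ) - 1) + 3 * a P N e ≤ 3 * N ∨
        (5 * ((e : ℤ) - 1) + 3 * a P N e ≤ 3 * N + 1 ∧
          ∃ j, 1 ≤ j ∧ j < n ∧ 2 ∣ g P N j)) := by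
  induction n with
  | zero => omega
  | succ n ih =>
    rcases Nat.eq_zero_or_pos n with rfl | hn
    · refine ⟨1, le_rfl, le_rfl, fun j hj1 hj2 => by omega, Or.inl ?_⟩
      simp [a_one]
    · obtain ⟨e, he1, he2, he4, he3⟩ := ih hn (by omega)
      have hpos := pos_of_lt_f P N hn (by omega)
      have hg0 : 0 < g P N n := Int.gcd_pos_of_ne_zero_left _ hpos.ne'
      rcases (show 1 ≤ g P N n from hg0).eq_or_lt with hg1 | hg1
      · refine ⟨e, he1, by omega, fun j hj1 hj2 => ?_, ?_⟩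
        · rcases (show j ≤ n by omega).eq_or_lt with rfl | hj
          · exact hg1.symm
          · exact he4 j hj1 hj
        · rcases he3 with h | ⟨h, j, hj1, hj2, hj3⟩
          · exact Or.inl h
          · exact Or.inr ⟨h, j, hj1, by omega, hj3⟩
      · -- a hit
        obtain ⟨p, hp, hpg⟩ := Nat.exists_prime_and_dvd (by omega : g P N n ≠ 1)
        have hpl : p ≤ g P N n := Nat.le_of_dvd hg0 hpg
        have hL := phase_le P N e n he1 he2 he4 p hp hpg
        have hr1 := run P N e he1 n he4 (n - e) (by omega)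
        have e1 : e + (n - e) = n := by omega
        rw [e1] at hr1
        have hs := a_succ' P N hn
        have c1 : ((n - e : ℕ) : ℤ) = n - e := by
          rw [Nat.cast_sub he2]
        rw [c1] at hr1
        have c2 : ((n + 1 - e : ℕ) : ℤ) = n + 1 - e := by
          rw [Nat.cast_sub (by omega)]
          push_cast
          ring
        have hL' : (n : ℤ) + 1 - e ≤ (p : ℤ) := by
          rw [← c2]
          exact_mod_cast hL
        have hpl' : (p : ℤ) ≤ (g P N n : ℤ) := by exact_mod_cast hpl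
        by_cases hev : 2 ∣ g P N n
        · -- an even hit
          have hL2 := phase_le P N e n he1 he2 he4 2 Nat.prime_two hev
          have hL2' : (n : ℤ) + 1 - e ≤ 2 := by
            rw [← c2]
            exact_mod_cast hL2
          have hg2 : (2 : ℤ) ≤ (g P N n : ℤ) := by exact_mod_cast hg1
          have hfirst : 5 * ((e : ℤ) - 1) + 3 * a P N e ≤ 3 * N := by
            rcases he3 with h | ⟨_, j, hj1, hj2, hj3⟩
            · exact h
            · exact absurd hev (odd_after_even P N hodd j hj1 hj3 n hj2)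
          refine ⟨n + 1, by omega, le_rfl, fun j hj1 hj2 => by omega,
            Or.inr ⟨?_, n, hn, by omega, hev⟩⟩
          rw [hs, hr1]
          push_cast
          linarith
        · -- an odd hit
          have hg3 : (3 : ℤ) ≤ (g P N n : ℤ) := by
            have : 3 ≤ g P N n := by omega
            exact_mod_cast this
          refine ⟨n + 1, by omega, le_rfl, fun j hj1 hj2 => by omega, ?_⟩
          rcases he3 with h | ⟨h, j, hj1, hj2, hj3⟩
          · left
            rw [hs, hr1]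
            push_cast
            linarith
          · right
            refine ⟨?_, j, hj1, by omega, hj3⟩
            rw [hs, hr1]
            push_cast
            linarith

/-- Every prime factor `p` of `P(f(N)+1)` satisfies `2 p ≥ 5 f(N) - 3 N - 4`. -/
theorem prime_bound (P : ℤ[X]) (N p : ℕ) (hp : p.Prime)
    (hdvd : (p : ℤ) ∣ P.eval ((f P N + 1 : ℕ) : ℤ)) :
    5 * (f P N : ℤ) - 3 * N - 4 ≤ 2 * p := by
  obtain ⟨hF1, hF0⟩ := f_mem P N
  by_cases hodd : ∃ m : ℕ, ¬ (2 : ℤ) ∣ P.eval (m : ℤ)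
  · obtain ⟨e, he1, he2, he4, he3⟩ := invariant P N hodd (f P N) hF1 le_rfl
    have he3' : 5 * ((e : ℤ) - 1) + 3 * a P N e ≤ 3 * N + 1 := by
      rcases he3 with h | ⟨h, _⟩
      · linarith
      · exact h
    have hr := run P N e he1 _ he4 (f P N - e) (by omega)
    have e1 : e + (f P N - e) = f P N := by omega
    rw [e1, hF0] at hr
    have hae : a P N e = (f P N : ℤ) - e := by
      have : ((f P N - e : ℕ) : ℤ) = (f P N : ℤ) - e := Nat.cast_sub he2
      linarith
    by_contra hcon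
    have hlt : (p : ℤ) ≤ (f P N : ℤ) - e := by
      rw [hae] at he3'
      omega
    have hple : p + e ≤ f P N := by
      have : (p : ℤ) + e ≤ (f P N : ℤ) := by linarith
      exact_mod_cast this
    have hgj := he4 (f P N - p) (by omega) (by have := hp.pos; omega)
    have hr2 := run P N e he1 _ he4 (f P N - p - e) (by omega)
    have e2 : e + (f P N - p - e) = f P N - p := by omega
    rw [e2, hae] at hr2
    have hap : a P N (f P N - p) = p := by
      rw [hr2]
      have : ((f P N - p - e : ℕ) : ℤ) = (f P N : ℤ) - p - e := by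
        rw [Nat.cast_sub (by omega), Nat.cast_sub (by omega)]
      rw [this]
      ring
    have hd2 : (p : ℤ) ∣ P.eval ((f P N - p + 1 : ℕ) : ℤ) := by
      have h := dvd_eval_sub P p _ hdvd
      have hc : ((f P N + 1 : ℕ) : ℤ) - p = ((f P N - p + 1 : ℕ) : ℤ) := by
        have : f P N + 1 = (f P N - p + 1) + p := by omega
        rw [this]
        push_cast
        ring
      rwa [hc] at h
    have hd1 : (p : ℤ) ∣ a P N (f P N - p) := by rw [hap]
    have hd3 : (p : ℤ) ∣ (g P N (f P N - p) : ℤ) := Int.dvd_coe_gcd hd1 hd2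
    rw [hgj] at hd3
    have := Int.natCast_dvd_natCast.1 hd3
    exact hp.one_lt.ne' (Nat.dvd_one.1 this)
  · push Not at hodd
    have h := main_ineq P 2 Nat.prime_two (fun n _ => by exact_mod_cast hodd n) N
    have hp2 : (2 : ℤ) ≤ p := by exact_mod_cast hp.two_le
    push_cast at h
    omega

theorem pow_le_prod (x : ℝ) (hx : 0 ≤ x) (l : List ℕ) (h : ∀ p ∈ l, x ≤ (p : ℝ)) :
    x ^ l.length ≤ ((l.prod : ℕ) : ℝ) := by
  induction l with
  | nil => simp
  | cons p l ih =>
    have h1 := ih (fun q hq => h q (List.mem_cons_of_mem _ hq))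
    have h2 := h p List.mem_cons_self
    rw [List.length_cons, List.prod_cons, pow_succ, Nat.cast_mul, mul_comm]
    exact mul_le_mul h2 h1 (pow_nonneg hx _) (Nat.cast_nonneg _)

/-- polynomial growth of the values -/
theorem eval_bound (P : ℤ[X]) : ∃ C : ℝ, 0 ≤ C ∧ ∀ m : ℕ, 1 ≤ m →
    (((P.eval (m : ℤ)).natAbs : ℕ) : ℝ) ≤ C * (m : ℝ) ^ P.natDegree := by
  refine ⟨∑ i ∈ Finset.range (P.natDegree + 1), |((P.coeff i : ℤ) : ℝ)|,
    Finset.sum_nonneg (fun i _ => abs_nonneg _), fun m hm => ?_⟩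
  rw [Nat.cast_natAbs, Polynomial.eval_eq_sum_range]
  push_cast
  rw [Finset.sum_mul]
  refine (Finset.abs_sum_le_sum_abs _ _).trans (Finset.sum_le_sum fun i hi => ?_)
  rw [abs_mul, abs_pow, Nat.abs_cast]
  have hm1 : (1 : ℝ) ≤ m := by exact_mod_cast hm
  exact mul_le_mul_of_nonneg_left
    (pow_le_pow_right₀ hm1 (by simpa [Nat.lt_succ_iff] using hi)) (abs_nonneg _)

/-- few prime factors when all of them are large -/
theorem cardFactors_bound (P : ℤ[X]) (hP : Admissible P) (η : ℝ) (hη : 0 < η) :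
    ∀ᶠ m : ℕ in atTop, (∀ p : ℕ, p.Prime → (p : ℤ) ∣ P.eval (m : ℤ) → η * m < p) →
      ArithmeticFunction.cardFactors (P.eval (m : ℤ)).natAbs ≤ P.natDegree := by
  obtain ⟨C, hC0, hC⟩ := eval_bound P
  have hpos : ∀ᶠ m : ℕ in atTop, 0 < P.eval (m : ℤ) := hP.2.eventually_gt_atTop 0
  have hlarge : ∀ᶠ m : ℕ in atTop, C / η ^ (P.natDegree + 1) < (m : ℝ) ∧ 1 / η ≤ (m : ℝ) ∧
      1 ≤ m :=
    ((tendsto_natCast_atTop_atTop.eventually_gt_atTop _).and
      ((tendsto_natCast_atTop_atTop.eventually_ge_atTop _).and (eventually_ge_atTop 1)))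
  filter_upwards [hpos, hlarge] with m hm0 hm1 hm2
  obtain ⟨hm3, hm4, hm5⟩ := hm1
  by_contra hcon
  push Not at hcon
  have hne : (P.eval (m : ℤ)).natAbs ≠ 0 := Int.natAbs_ne_zero.2 hm0.ne'
  rw [ArithmeticFunction.cardFactors_apply] at hcon
  have hmpos : (0 : ℝ) < m := by exact_mod_cast hm5
  have hx1 : 1 ≤ η * m := by
    have := mul_le_mul_of_nonneg_left hm4 hη.le
    rwa [mul_one_div_cancel hη.ne'] at this
  have h1 := pow_le_prod (η * m) (by positivity) (P.eval (m : ℤ)).natAbs.primeFactorsList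
    (fun p hp => by
      have hp1 := Nat.prime_of_mem_primeFactorsList hp
      have hp2 := Nat.dvd_of_mem_primeFactorsList hp
      exact (hm2 p hp1 (Int.natCast_dvd.2 hp2)).le)
  rw [Nat.prod_primeFactorsList hne] at h1
  have h2 : (η * m) ^ (P.natDegree + 1) ≤ (η * m) ^
      (P.eval (m : ℤ)).natAbs.primeFactorsList.length :=
    pow_le_pow_right₀ hx1 hcon
  have h3 := h2.trans (h1.trans (hC m hm5))
  have h4 : η ^ (P.natDegree + 1) * m ≤ C := by
    have h5 : (η ^ (P.natDegree + 1) * m) * (m : ℝ) ^ P.natDegree ≤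
        C * (m : ℝ) ^ P.natDegree := by
      calc (η ^ (P.natDegree + 1) * m) * (m : ℝ) ^ P.natDegree
          = (η * m) ^ (P.natDegree + 1) := by rw [mul_pow, pow_succ (m : ℝ)]; ring
        _ ≤ _ := h3
    exact le_of_mul_le_mul_right h5 (by positivity)
  rw [div_lt_iff₀ (by positivity)] at hm3
  linarith

theorem isBoundedUnder_le (P : ℤ[X]) :
    IsBoundedUnder (· ≤ ·) atTop fun N : ℕ => (f P N : ℝ) / N := by
  refine ⟨2, ?_⟩
  rw [eventually_map]
  filter_upwards [eventually_ge_atTop 1] with N hN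
  have hN' : (0 : ℝ) < N := by exact_mod_cast hN
  rw [div_le_iff₀ hN']
  have h1 : (f P N : ℝ) ≤ N + 1 := by exact_mod_cast f_le P N
  have h2 : (1 : ℝ) ≤ N := by exact_mod_cast hN
  linarith

theorem frequently_rough (P : ℤ[X]) (η : ℝ) (hη : 0 < η)
    (hℓ : 0 < limsup (fun N : ℕ => (f P N : ℝ) / N) atTop)
    (hlt : η < (5 - 3 / limsup (fun N : ℕ => (f P N : ℝ) / N) atTop) / 2) :
    ∃ᶠ m : ℕ in atTop, ∀ p : ℕ, p.Prime → (p : ℤ) ∣ P.eval (m : ℤ) → η * m < p := by
  set ℓ := limsup (fun N : ℕ => (f P N : ℝ) / N) atTop with hℓdef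
  have h3 : 3 / ℓ < 5 - 2 * η := by linarith
  have h4 : 0 < 5 - 2 * η := lt_trans (by positivity) h3
  have h5 : 3 / (5 - 2 * η) < ℓ := by
    rw [div_lt_iff₀ hℓ] at h3
    rw [div_lt_iff₀ h4]
    linarith
  obtain ⟨x, hx1, hx2⟩ := exists_between h5
  have hx0 : 0 < x := lt_trans (by positivity) hx1
  have hc : 3 / x < 5 - 2 * η := by
    rw [div_lt_iff₀ h4] at hx1
    rw [div_lt_iff₀ hx0]
    linarith
  have hfreq : ∃ᶠ N : ℕ in atTop, x < (f P N : ℝ) / N := by
    refine frequently_lt_of_lt_limsup ?_ hx2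
    exact (isBoundedUnder_of ⟨0, fun N => by positivity⟩ :
      IsBoundedUnder (· ≥ ·) atTop fun N : ℕ => (f P N : ℝ) / N).isCoboundedUnder_le
  rw [frequently_atTop] at hfreq ⊢
  intro M
  set c := 5 - 2 * η - 3 / x with hcdef
  have hc0 : 0 < c := by linarith
  obtain ⟨N, hN1, hN2⟩ := hfreq (max 1 (⌈((M : ℝ) + (4 + 2 * η) / c) / x⌉₊))
  have hN0 : 1 ≤ N := le_trans (le_max_left _ _) hN1
  have hN0' : (0 : ℝ) < N := by exact_mod_cast hN0
  have hN3 : ((M : ℝ) + (4 + 2 * η) / c) / x ≤ N :=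
    (Nat.le_ceil _).trans (by exact_mod_cast (le_trans (le_max_right _ _) hN1))
  rw [div_le_iff₀ hx0] at hN3
  rw [lt_div_iff₀ hN0'] at hN2
  have hF : (M : ℝ) + (4 + 2 * η) / c < f P N := by nlinarith
  have hK : 0 < (4 + 2 * η) / c := by positivity
  refine ⟨f P N + 1, ?_, fun p hp hdvd => ?_⟩
  · have : (M : ℝ) < f P N := by linarith
    have : M < f P N := by exact_mod_cast this
    omega
  · have h := prime_bound P N p hp hdvd
    have h' : 5 * (f P N : ℝ) - 3 * N - 4 ≤ 2 * p := by exact_mod_cast h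
    have h6 : (N : ℝ) ≤ f P N / x := by
      rw [le_div_iff₀ hx0]
      linarith
    have h7 : 3 * (N : ℝ) ≤ 3 / x * f P N := by
      have := mul_le_mul_of_nonneg_left h6 (by norm_num : (0 : ℝ) ≤ 3)
      calc 3 * (N : ℝ) ≤ 3 * (f P N / x) := this
        _ = 3 / x * f P N := by ring
    have h8 : (4 + 2 * η) < c * f P N := by
      have h9 : (4 + 2 * η) / c < f P N := by
        have : (0 : ℝ) ≤ M := Nat.cast_nonneg M
        linarith
      rw [div_lt_iff₀ hc0] at h9
      linarith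
    push_cast
    have h10 : c * (f P N : ℝ) = 5 * f P N - 2 * η * f P N - 3 / x * f P N := by
      rw [hcdef]; ring
    linarith

/-- **What a large `limsup` forces.**  Let `P` be as in the problem.
(1) For every `N` every prime factor `p` of `P(f(N)+1)` satisfies `2p ≥ 5 f(N) - 3 N - 4`.
(2) Write `ℓ = limsup f(N)/N` and suppose `0 < η < (5 - 3/ℓ)/2` (possible when `ℓ > 3/5`; if
`ℓ = 1` every `η < 1` is allowed).  Then for infinitely many `m` all prime factors of `P(m)`
exceed `η m` and `P(m)` has at most `deg P` prime factors counted with multiplicity. -/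
theorem result (P : ℤ[X]) (hP : Admissible P) :
    (∀ N p : ℕ, p.Prime → (p : ℤ) ∣ P.eval ((f P N + 1 : ℕ) : ℤ) →
      5 * (f P N : ℤ) - 3 * N - 4 ≤ 2 * p) ∧
    (∀ η : ℝ, 0 < η → 0 < limsup (fun N : ℕ => (f P N : ℝ) / N) atTop →
      η < (5 - 3 / limsup (fun N : ℕ => (f P N : ℝ) / N) atTop) / 2 →
      ∃ᶠ m : ℕ in atTop,
        (∀ p : ℕ, p.Prime → (p : ℤ) ∣ P.eval (m : ℤ) → η * m < p) ∧
        ArithmeticFunction.cardFactors (P.eval (m : ℤ)).natAbs ≤ P.natDegree) := by
  refine ⟨fun N p hp h => prime_bound P N p hp h, fun η hη hℓ hlt => ?_⟩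
  have h1 := frequently_rough P η hη hℓ hlt
  have h2 := cardFactors_bound P hP η hη
  exact (h1.and_eventually h2).mono fun m hm => ⟨hm.1, hm.2 hm.1⟩

end Pool.Agent.Results.MP_0950f1_nt.FinalPhase
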