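import Mathlib
import Pool.Agent.H87.GcdRec

/-!
Negative answer to Q1 of MP_0950f1_nt, for every polynomial with a fixed prime divisor.
-/

open Polynomial Filter
open Pool.Agent.H87.GcdRec

namespace Pool.Agent.Results.MP_0950f1_nt.FixedDivisor

theorem main_bound (P : ℤ[X]) (q : ℕ) (hq : q.Prime)
    (hdiv : ∀ n : ℕ, 1 ≤ n → (q : ℤ) ∣ P.eval (n : ℤ)) (N : ℕ) :
    (f P N : ℝ) ≤ (1 - 1 / (q : ℝ)) * N + 2 := by
  have h := main_ineq P q hq hdiv N
  have hq0 : (0 : ℤ) < q := by exact_mod_cast hq.pos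
  have h1 : (N : ℤ) % q < q := Int.emod_lt_of_pos _ hq0
  have h2 : (q : ℤ) * f P N ≤ ((q : ℤ) - 1) * N + 2 * q := by linarith
  have h3 : (q : ℝ) * f P N ≤ ((q : ℝ) - 1) * N + 2 * q := by exact_mod_cast h2
  have hq0' : (0 : ℝ) < q := by exact_mod_cast hq.pos
  have h4 : (q : ℝ) * ((1 - 1 / (q : ℝ)) * N + 2) = ((q : ℝ) - 1) * N + 2 * q := by
    field_simp
  exact le_of_mul_le_mul_left (by rw [h4]; exact h3) hq0'

theorem limsup_bound (P : ℤ[X]) (q : ℕ) (hq : q.Prime)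
    (hdiv : ∀ n : ℕ, 1 ≤ n → (q : ℤ) ∣ P.eval (n : ℤ)) :
    limsup (fun N : ℕ => (f P N : ℝ) / N) atTop ≤ 1 - 1 / (q : ℝ) := by
  have hlim : Tendsto (fun N : ℕ => (1 - 1 / (q : ℝ)) + 2 / (N : ℝ)) atTop
      (nhds (1 - 1 / (q : ℝ))) := by
    have h := (tendsto_const_div_atTop_nhds_zero_nat (2 : ℝ)).const_add (1 - 1 / (q : ℝ))
    simpa using h
  have hle : ∀ᶠ N : ℕ in atTop, (f P N : ℝ) / N ≤ (1 - 1 / (q : ℝ)) + 2 / (N : ℝ) := by
    filter_upwards [eventually_gt_atTop 0] with N hN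
    have hN' : (0 : ℝ) < N := by exact_mod_cast hN
    rw [div_le_iff₀ hN', add_mul, div_mul_cancel₀ _ hN'.ne']
    exact main_bound P q hq hdiv N
  calc limsup (fun N : ℕ => (f P N : ℝ) / N) atTop
      ≤ limsup (fun N : ℕ => (1 - 1 / (q : ℝ)) + 2 / (N : ℝ)) atTop := by
        refine limsup_le_limsup hle ?_ hlim.isBoundedUnder_le
        exact (isBoundedUnder_of ⟨0, fun N => by positivity⟩ :
          IsBoundedUnder (· ≥ ·) atTop fun N : ℕ => (f P N : ℝ) / N).isCoboundedUnder_le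
    _ = 1 - 1 / (q : ℝ) := hlim.limsup_eq

/-- The example `X ^ 2 + X + 2`. -/
noncomputable def P₀ : ℤ[X] := X ^ 2 + X + 2

theorem P₀_eval (n : ℤ) : P₀.eval n = n ^ 2 + n + 2 := by
  simp [P₀]

theorem P₀_monic : P₀.Monic := by
  unfold P₀
  monicity!

theorem P₀_natDegree : P₀.natDegree = 2 := by
  unfold P₀
  compute_degree!

theorem P₀_irreducible : Irreducible P₀ := by
  rw [P₀_monic.irreducible_iff_roots_eq_zero_of_degree_le_three
    (by rw [P₀_natDegree]) (by rw [P₀_natDegree]; norm_num)]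
  rw [Multiset.eq_zero_iff_forall_notMem]
  intro x hx
  have h := (mem_roots'.1 hx).2
  rw [IsRoot.def, P₀_eval] at h
  nlinarith [sq_nonneg (2 * x + 1)]

theorem P₀_even (n : ℤ) : (2 : ℤ) ∣ P₀.eval n := by
  rw [P₀_eval]
  have h : n ^ 2 + n + 2 = n * (n + 1) + 2 := by ring
  rw [h]
  exact dvd_add (Int.even_mul_succ_self n).two_dvd (dvd_refl 2)

theorem P₀_admissible : Admissible P₀ := by
  constructor
  · intro n _
    rw [P₀_eval]
    positivity
  · refine tendsto_atTop_mono (f := fun n : ℕ => (n : ℤ)) (fun n => ?_)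
      tendsto_natCast_atTop_atTop
    rw [P₀_eval]
    nlinarith [sq_nonneg (n : ℤ)]

/-- **Negative answer to Q1.**  If a prime `q` divides all the values `P(n)`, `n ≥ 1`, then
`f_P(N) ≤ (1 - 1/q) N + 2` for every `N`, so `limsup f_P(N)/N ≤ 1 - 1/q < 1`.  There is such a
polynomial which is monic and irreducible over `ℤ` and takes positive values, so the assertion
`limsup = 1` of Q1 fails. -/
theorem result :
    (∀ (P : ℤ[X]) (q : ℕ), Admissible P → q.Prime →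
      (∀ n : ℕ, 1 ≤ n → (q : ℤ) ∣ P.eval (n : ℤ)) →
        (∀ N : ℕ, (f P N : ℝ) ≤ (1 - 1 / (q : ℝ)) * N + 2) ∧
        limsup (fun N : ℕ => (f P N : ℝ) / N) atTop ≤ 1 - 1 / (q : ℝ)) ∧
    (∃ P : ℤ[X], Admissible P ∧ P.Monic ∧ Irreducible P ∧
      (∀ n : ℕ, 1 ≤ n → 0 < P.eval (n : ℤ)) ∧
      (∀ N : ℕ, (f P N : ℝ) ≤ (1 - 1 / 2) * N + 2)) ∧
    ¬ (∀ P : ℤ[X], Admissible P → limsup (fun N : ℕ => (f P N : ℝ) / N) atTop = 1) := by
  refine ⟨fun P q _ hq hdiv => ⟨main_bound P q hq hdiv, limsup_bound P q hq hdiv⟩,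
    ⟨P₀, P₀_admissible, P₀_monic, P₀_irreducible, fun n _ => ?_, fun N => ?_⟩, fun h => ?_⟩
  · rw [P₀_eval]
    positivity
  · have := main_bound P₀ 2 Nat.prime_two (fun n _ => P₀_even n) N
    push_cast at this
    exact this
  · have h1 := limsup_bound P₀ 2 Nat.prime_two (fun n _ => P₀_even n)
    rw [h P₀ P₀_admissible] at h1
    norm_num at h1

end Pool.Agent.Results.MP_0950f1_nt.FixedDivisor
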